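import Mathlib

/-!
# The real closure of an affine space over the rational numbers
-/

set_option autoImplicit false
set_option linter.all false

open scoped Classical

namespace Pool.Agent.U693.QN

theorem semi_affine {N : ℕ} (V : Set (Fin N → ℚ)) (q₀ : Fin N → ℚ) (W : Submodule ℚ (Fin N → ℚ))
    (hV : ∀ q, q ∈ V ↔ q - q₀ ∈ W) :
    ∃ P : MvPolynomial (Fin N) ℚ,
      closure {x : Fin N → ℝ | ∃ q ∈ V, ∀ j, x j = ((q j : ℚ) : ℝ)} =
        {x : Fin N → ℝ | (MvPolynomial.aeval x P : ℝ) = 0} := by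
  obtain ⟨g, hg⟩ := LinearMap.exists_leftInverse_of_injective W.subtype
    (LinearMap.ker_eq_bot.2 W.injective_subtype)
  let π : (Fin N → ℚ) →ₗ[ℚ] (Fin N → ℚ) := W.subtype.comp g
  have h1 : ∀ q, π q ∈ W := fun q => (g q).2
  have h2 : ∀ q ∈ W, π q = q := by
    intro q hq
    have := DFunLike.congr_fun hg ⟨q, hq⟩
    show ((g q : W) : Fin N → ℚ) = q
    exact congrArg Subtype.val this
  let M : Matrix (Fin N) (Fin N) ℚ := LinearMap.toMatrix' π
  have hM : ∀ q i, π q i = ∑ j, M i j * q j := by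
    intro q i
    have : π q = M.mulVec q := by
      show π q = (LinearMap.toMatrix' π).mulVec q
      rw [LinearMap.toMatrix'_mulVec]
    rw [this]
    rfl
  let F : (Fin N → ℝ) → (Fin N → ℝ) := fun x i => ∑ j, ((M i j : ℚ) : ℝ) * x j
  have hFc : Continuous F := by
    refine continuous_pi fun i => continuous_finset_sum _ fun j _ => ?_
    exact continuous_const.mul (continuous_apply j)
  have hFq : ∀ (q : Fin N → ℚ) i, F (fun j => ((q j : ℚ) : ℝ)) i = ((π q i : ℚ) : ℝ) := by
    intro q i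
    rw [hM]
    push_cast
    rfl
  let c₀ : Fin N → ℝ := fun j => ((q₀ j : ℚ) : ℝ)
  let P : MvPolynomial (Fin N) ℚ := ∑ i, (∑ j, MvPolynomial.C (M i j) *
    (MvPolynomial.X j - MvPolynomial.C (q₀ j)) - (MvPolynomial.X i - MvPolynomial.C (q₀ i))) ^ 2
  have hP : ∀ x : Fin N → ℝ, (MvPolynomial.aeval x P : ℝ) =
      ∑ i, (F (x - c₀) i - (x - c₀) i) ^ 2 := by
    intro x
    simp only [P, map_sum, map_pow, map_sub, map_mul, MvPolynomial.aeval_X, MvPolynomial.aeval_C]
    rfl
  have hP0 : ∀ x : Fin N → ℝ, (MvPolynomial.aeval x P : ℝ) = 0 ↔ F (x - c₀) = x - c₀ := by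
    intro x
    rw [hP, Finset.sum_eq_zero_iff_of_nonneg fun i _ => sq_nonneg _]
    constructor
    · intro h
      funext i
      have := h i (Finset.mem_univ i)
      exact sub_eq_zero.1 (pow_eq_zero_iff (two_ne_zero)|>.1 this)
    · intro h i _
      rw [h]
      simp
  refine ⟨P, Set.Subset.antisymm ?_ ?_⟩
  · refine closure_minimal ?_ ?_
    · rintro x ⟨q, hq, hx⟩
      show (MvPolynomial.aeval x P : ℝ) = 0
      rw [hP0]
      have e : x - c₀ = fun j => (((q - q₀) j : ℚ) : ℝ) := by
        funext j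
        rw [Pi.sub_apply, hx j, Pi.sub_apply]
        push_cast
        rfl
      funext i
      rw [e, hFq, h2 _ ((hV q).1 hq)]
    · have : {x : Fin N → ℝ | (MvPolynomial.aeval x P : ℝ) = 0} =
          {x : Fin N → ℝ | F (x - c₀) = x - c₀} := by
        ext x
        exact hP0 x
      rw [this]
      exact isClosed_eq (hFc.comp (continuous_id.sub continuous_const))
        (continuous_id.sub continuous_const)
  · intro x hx
    have hx' : F (x - c₀) = x - c₀ := (hP0 x).1 hx
    let G : (Fin N → ℝ) → (Fin N → ℝ) := fun y => c₀ + F y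
    have hGc : Continuous G := continuous_const.add hFc
    have hd : DenseRange (fun (q : Fin N → ℚ) (j : Fin N) => ((q j : ℚ) : ℝ)) :=
      DenseRange.piMap fun _ => Rat.denseRange_cast
    have h3 : G (x - c₀) = x := by
      show c₀ + F (x - c₀) = x
      rw [hx']
      simp
    rw [← h3]
    have h4 : (x - c₀) ∈ closure (Set.range (fun (q : Fin N → ℚ) (j : Fin N) => ((q j : ℚ) : ℝ))) :=
      hd _
    have h5 := image_closure_subset_closure_image hGc (Set.mem_image_of_mem G h4)
    refine closure_mono ?_ h5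
    rintro _ ⟨_, ⟨q, rfl⟩, rfl⟩
    refine ⟨q₀ + π q, (hV _).2 (by simpa using h1 q), fun j => ?_⟩
    show c₀ j + F _ j = _
    rw [hFq, Pi.add_apply]
    push_cast
    rfl

end Pool.Agent.U693.QN
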