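import Mathlib

/-!
# Rational points of schemes with a map to an elliptic curve without points
-/

set_option autoImplicit false
set_option linter.all false

open AlgebraicGeometry CategoryTheory IsLocalRing

namespace Pool.Agent.U693.QN

theorem no_pt {T : Type} [Field T] {A B : ℤ} (h : ∀ a b : T, b ^ 2 ≠ a ^ 3 + A * a + B)
    {X : Scheme.{0}} (s : Spec (.of T) ⟶ X) (U : X.Opens) (x y : Γ(X, U))
    (he : y ^ 2 = x ^ 3 + (A : Γ(X, U)) * x + (B : Γ(X, U))) : s (closedPoint T) ∉ U := by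
  intro hs
  let φ : X.residueField (s (closedPoint T)) ⟶ .of T :=
    X.descResidueField (Scheme.stalkClosedPointTo s)
  let ψ : Γ(X, U) →+* T := (X.evaluation U _ hs ≫ φ).hom
  apply h (ψ x) (ψ y)
  have h1 := congrArg ψ he
  rw [map_add, map_add, map_mul, map_pow, map_pow, map_intCast, map_intCast] at h1
  exact h1

theorem sec_unique {F : Type} [Field F] {X : Scheme.{0}} (π : X ⟶ Spec (.of F))
    {s s' : Spec (.of F) ⟶ X} (h : s ≫ π = 𝟙 _) (h' : s' ≫ π = 𝟙 _)
    (e : s (closedPoint F) = s' (closedPoint F)) : s = s' := by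
  obtain ⟨⟨x, φ⟩, rfl⟩ := (Scheme.SpecToEquivOfField F X).symm.surjective s
  obtain ⟨⟨x', φ'⟩, rfl⟩ := (Scheme.SpecToEquivOfField F X).symm.surjective s'
  have hp : ∀ (z : X) (ψ : X.residueField z ⟶ .of F),
      ((Scheme.SpecToEquivOfField F X).symm ⟨z, ψ⟩) (closedPoint F) = z := fun z ψ =>
    congrArg Sigma.fst ((Scheme.SpecToEquivOfField F X).apply_symm_apply ⟨z, ψ⟩)
  have e1 : x = x' := by
    rw [hp, hp] at e
    exact e
  subst e1
  obtain ⟨ι, hι⟩ := Spec.map_surjective (X.fromSpecResidueField x ≫ π)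
  have key : ∀ ψ : X.residueField x ⟶ .of F,
      ((Scheme.SpecToEquivOfField F X).symm ⟨x, ψ⟩) ≫ π = 𝟙 _ → ι ≫ ψ = 𝟙 _ := by
    intro ψ hψ
    apply Spec.map_injective
    rw [Spec.map_comp, hι, Spec.map_id, ← hψ]
    simp
  have k1 := key φ h
  have k2 := key φ' h'
  congr 2
  ext a
  have hinj : Function.Injective φ.hom := φ.hom.injective
  have a1 : ∀ b : F, φ.hom (ι.hom b) = b := fun b => by
    have := congrArg (fun q => q.hom b) k1
    simpa using this
  have a2 : ∀ b : F, φ'.hom (ι.hom b) = b := fun b => by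
    have := congrArg (fun q => q.hom b) k2
    simpa using this
  have a3 : ι.hom (φ.hom a) = a := hinj (a1 _)
  calc φ.hom a = φ'.hom (ι.hom (φ.hom a)) := (a2 _).symm
    _ = φ'.hom a := by rw [a3]

end Pool.Agent.U693.QN
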