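import Mathlib

/-!
# Traces of algebraic points of products of elliptic curves without points
-/

set_option autoImplicit false
set_option linter.all false

open scoped Classical

namespace Pool.Agent.U693.QN

open WeierstrassCurve

section tr

variable {L Ω : Type} [Field L] [CharZero L] [Field Ω] [Algebra ℚ L] [Algebra ℚ Ω] [Algebra L Ω]
  [IsScalarTower ℚ L Ω] [IsAlgClosed Ω] [Algebra.IsAlgebraic L Ω]

theorem gal_closed : IsGalois L Ω := by
  haveI : IsAlgClosure L Ω := ⟨inferInstance, inferInstance⟩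
  haveI : Normal L Ω := IsAlgClosure.normal L Ω
  exact ⟨⟩

theorem trace_zero (W : WeierstrassCurve ℚ)
    (hno : ∀ x y : L, ¬ (W.baseChange Ω).toAffine.Nonsingular (algebraMap L Ω x) (algebraMap L Ω y))
    (L' : IntermediateField L Ω) [FiniteDimensional L L']
    (σ : (L' →ₐ[L] Ω) → (Ω ≃ₐ[L] Ω)) (hσ : ∀ τ (a : L'), σ τ a = τ a)
    (P : (W.baseChange Ω).toAffine.Point) (hP : ∀ x y h, P = .some x y h → x ∈ L' ∧ y ∈ L') :
    ∑ τ : L' →ₐ[L] Ω, Affine.Point.map (W' := W) ((σ τ : Ω ≃ₐ[L] Ω) : Ω →ₐ[L] Ω) P = 0 := by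
  set T := ∑ τ : L' →ₐ[L] Ω, Affine.Point.map (W' := W) ((σ τ : Ω ≃ₐ[L] Ω) : Ω →ₐ[L] Ω) P with hT
  have key : ∀ (g g' : Ω →ₐ[L] Ω), (∀ a ∈ L', g a = g' a) →
      Affine.Point.map (W' := W) g P = Affine.Point.map (W' := W) g' P := by
    intro g g' h
    rcases P with _ | ⟨x, y, hxy⟩
    · rfl
    · obtain ⟨h1, h2⟩ := hP x y hxy rfl
      have e1 := h x h1
      have e2 := h y h2
      rw [Affine.Point.map_some, Affine.Point.map_some]
      simp only [e1, e2]
  have inv : ∀ g : Ω ≃ₐ[L] Ω, Affine.Point.map (W' := W) (g : Ω →ₐ[L] Ω) T = T := by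
    intro g
    let e : (L' →ₐ[L] Ω) ≃ (L' →ₐ[L] Ω) :=
      { toFun := fun τ => (g : Ω →ₐ[L] Ω).comp τ
        invFun := fun τ => (g.symm : Ω →ₐ[L] Ω).comp τ
        left_inv := fun τ => by
          ext a
          simp
        right_inv := fun τ => by
          ext a
          simp }
    rw [hT, map_sum]
    refine (Finset.sum_congr rfl fun τ _ => ?_).trans (Equiv.sum_comp e
      (fun τ => Affine.Point.map (W' := W) ((σ τ : Ω ≃ₐ[L] Ω) : Ω →ₐ[L] Ω) P))
    rw [Affine.Point.map_map]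
    apply key
    intro a ha
    have h1 := hσ τ ⟨a, ha⟩
    have h2 := hσ (e τ) ⟨a, ha⟩
    show g (σ τ a) = σ (e τ) a
    have h3 : σ τ a = τ ⟨a, ha⟩ := h1
    have h4 : σ (e τ) a = (e τ) ⟨a, ha⟩ := h2
    rw [h3, h4]
    rfl
  haveI : IsGalois L Ω := gal_closed
  have fin : ∀ R : (W.baseChange Ω).toAffine.Point,
      (∀ g : Ω ≃ₐ[L] Ω, Affine.Point.map (W' := W) (g : Ω →ₐ[L] Ω) R = R) → R = 0 := by
    intro R hR
    rcases R with _ | ⟨x, y, hxy⟩
    · rfl
    · exfalso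
      have h1 : ∀ g : Ω ≃ₐ[L] Ω, g x = x ∧ g y = y := by
        intro g
        have h2 := hR g
        rw [Affine.Point.map_some, Affine.Point.some.injEq] at h2
        exact h2
      have h3 : x ∈ (⊥ : IntermediateField L Ω) :=
        (InfiniteGalois.mem_bot_iff_fixed x).2 fun g => (h1 g).1
      have h4 : y ∈ (⊥ : IntermediateField L Ω) :=
        (InfiniteGalois.mem_bot_iff_fixed y).2 fun g => (h1 g).2
      obtain ⟨a, rfl⟩ := IntermediateField.mem_bot.1 h3
      obtain ⟨b, rfl⟩ := IntermediateField.mem_bot.1 h4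
      exact hno a b hxy
  exact fin T inv

/-- **The trace of a point of a product is zero.** -/
theorem tr_tuple {J : Type} (W : J → WeierstrassCurve ℚ)
    (hno : ∀ j, ∀ x y : L,
      ¬ ((W j).baseChange Ω).toAffine.Nonsingular (algebraMap L Ω x) (algebraMap L Ω y))
    (L' : IntermediateField L Ω) [FiniteDimensional L L']
    (z : ∀ j, ((W j).baseChange Ω).toAffine.Point)
    (hz : ∀ j x y h, z j = .some x y h → x ∈ L' ∧ y ∈ L') :
    ∃ σ : Fin (Module.finrank L L' - 1) → (Ω ≃ₐ[L] Ω),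
      ∀ j, z j + ∑ k, Affine.Point.map (W' := W j) ((σ k : Ω ≃ₐ[L] Ω) : Ω →ₐ[L] Ω) (z j) = 0 := by
  have hex : ∀ τ : L' →ₐ[L] Ω, ∃ g : Ω ≃ₐ[L] Ω, ∀ a : L', g a = τ a := by
    intro τ
    obtain ⟨φ, hφ⟩ := IsAlgClosed.surjective_restrictDomain_of_isAlgebraic (K := L) (L := L')
      (M := Ω) (E := Ω) τ
    refine ⟨AlgEquiv.ofBijective φ (Algebra.IsAlgebraic.algHom_bijective φ), fun a => ?_⟩
    exact DFunLike.congr_fun hφ a
  choose σ hσ using hex
  have hcard : Fintype.card {τ : L' →ₐ[L] Ω // τ ≠ L'.val} = Module.finrank L L' - 1 := by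
    rw [Fintype.card_subtype_compl, Fintype.card_subtype_eq]
    congr 1
    exact AlgHom.card L L' Ω
  let e := (Fintype.equivFinOfCardEq hcard).symm
  refine ⟨fun k => σ (e k).1, fun j => ?_⟩
  have h1 := trace_zero (W j) (hno j) L' σ hσ (z j) (hz j)
  rw [Fintype.sum_eq_add_sum_subtype_ne _ L'.val] at h1
  have h2 : Affine.Point.map (W' := W j) ((σ L'.val : Ω ≃ₐ[L] Ω) : Ω →ₐ[L] Ω) (z j) = z j := by
    generalize hR : z j = R
    rcases R with _ | ⟨x, y, hxy⟩
    · rfl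
    · obtain ⟨a1, a2⟩ := hz j x y hxy hR
      have e1 : σ L'.val x = x := hσ L'.val ⟨x, a1⟩
      have e2 : σ L'.val y = y := hσ L'.val ⟨y, a2⟩
      rw [Affine.Point.map_some, Affine.Point.some.injEq]
      exact ⟨e1, e2⟩
  rw [h2] at h1
  rw [← Equiv.sum_comp e] at h1
  exact h1

end tr

end Pool.Agent.U693.QN
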