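import Pool.Agent.U693.UN.Comp
import Pool.Agent.U693.UN.Che

/-!
# Chebotarev's theorem for several cubic polynomials which are irreducible modulo two
-/

set_option autoImplicit false
set_option linter.all false

open Polynomial NumberField IsDedekindDomain Filter Pool.Agent.W401.Cheb
open scoped Classical

namespace Pool.Agent.U693.QN

open Pool.Agent.U693.UN
open Pool.Agent.N922.PQ (IsPr Ov)

/-- A Frobenius automorphism at a prime over two, which may be ramified. -/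
theorem frob_two (L : Type) [Field L] [NumberField L] [IsGalois ℚ L] :
    ∃ (𝔮 : Ideal (𝓞 L)) (g : Gal(L/ℚ)), 𝔮.IsPrime ∧ (2 : 𝓞 L) ∈ 𝔮 ∧
      ∀ x : 𝓞 L, g • x - x ^ 2 ∈ 𝔮 := by
  obtain ⟨w, hw⟩ := Pool.Agent.N922.PQ.exists_over (𝓞 L)
  haveI : Finite (𝓞 L ⧸ w.asIdeal) := fin_quot w
  obtain ⟨σ, hσ⟩ := IsArithFrobAt.exists_of_isInvariant ℤ Gal(L/ℚ) w.asIdeal
  have hc := card_res w two_pr hw
  have hc' : Nat.card (ℤ ⧸ w.asIdeal.under ℤ) = 2 := by exact_mod_cast hc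
  have h2 : (2 : 𝓞 L) ∈ w.asIdeal := by
    have h3 : ((2 : ℤ) : 𝓞 L) ∈ w.asIdeal := hw
    rwa [Int.cast_ofNat] at h3
  refine ⟨w.asIdeal, σ, w.isPrime, h2, fun x => ?_⟩
  have h4 : σ • x - x ^ Nat.card (ℤ ⧸ w.asIdeal.under ℤ) ∈ w.asIdeal := hσ x
  rwa [hc'] at h4

/-- An integer which is in a prime over two is even. -/
theorem even_of_mem {L : Type} [Field L] [NumberField L] {𝔮 : Ideal (𝓞 L)} (h𝔮 : 𝔮.IsPrime)
    (h2 : (2 : 𝓞 L) ∈ 𝔮) {z : ℤ} (hz : (z : 𝓞 L) ∈ 𝔮) : (2 : ℤ) ∣ z := by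
  by_contra h
  apply h𝔮.ne_top
  rw [Ideal.eq_top_iff_one]
  obtain ⟨m, hm⟩ : ∃ m, z = 2 * m + 1 := ⟨z / 2, by omega⟩
  have e : (1 : 𝓞 L) = (z : 𝓞 L) - 2 * (m : 𝓞 L) := by
    rw [hm]
    push_cast
    ring
  rw [e]
  exact sub_mem hz (Ideal.mul_mem_right _ _ h2)

/-- The Frobenius automorphism at two has no fixed zero. -/
theorem frob_two_root {L : Type} [Field L] [NumberField L] {𝔮 : Ideal (𝓞 L)} (h𝔮 : 𝔮.IsPrime)
    (h2 : (2 : 𝓞 L) ∈ 𝔮) {A B : ℤ} (hnz : ∀ z : ℤ, ¬ (2 : ℤ) ∣ z ^ 3 + A * z + B) {x : 𝓞 L}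
    (hx : x ^ 3 + A * x + B = 0) (hfix : x - x ^ 2 ∈ 𝔮) : False := by
  have e0 : x - x ^ 2 = x * (1 - x) := by ring
  rw [e0] at hfix
  rcases h𝔮.mem_or_mem hfix with h | h
  · apply hnz 0
    apply even_of_mem h𝔮 h2
    have e : ((0 ^ 3 + A * 0 + B : ℤ) : 𝓞 L) = - (x * (x ^ 2 + A)) := by
      push_cast
      linear_combination hx
    rw [e]
    exact neg_mem (Ideal.mul_mem_right _ _ h)
  · apply hnz 1
    apply even_of_mem h𝔮 h2
    have e : ((1 ^ 3 + A * 1 + B : ℤ) : 𝓞 L) = (1 - x) * (1 + x + x ^ 2 + A) := by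
      push_cast
      linear_combination hx
    rw [e]
    exact Ideal.mul_mem_right _ _ h

section spl

variable {n : ℕ} (p : Fin n → ℤ × ℤ) (S : Finset ℤ)

/-- the product -/
noncomputable def bigT : ℚ[X] :=
  (∏ i, cub (p i).1 (p i).2) * ((X ^ 2 - C ((-1 : ℤ) : ℚ)) * ∏ Q ∈ S, (X ^ 2 - C (Q : ℚ)))

theorem bigT_ne : bigT p S ≠ 0 := by
  unfold bigT
  refine mul_ne_zero (Finset.prod_ne_zero_iff.2 fun i _ => (cub_monic _ _).ne_zero)
    (mul_ne_zero (monic_X_pow_sub_C _ two_ne_zero).ne_zero ?_)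
  rw [Finset.prod_ne_zero_iff]
  intro Q _
  exact (monic_X_pow_sub_C _ two_ne_zero).ne_zero

theorem bigP_dvd (i : Fin n) : bigP (p i).1 (p i).2 S ∣ bigT p S := by
  unfold bigT bigP
  rw [mul_assoc]
  exact mul_dvd_mul (Finset.dvd_prod_of_mem (fun j => cub (p j).1 (p j).2) (Finset.mem_univ i))
    (dvd_refl _)

/-- a splitting field -/
theorem exists_fieldT : ∃ (L : Type) (_ : Field L) (_ : NumberField L) (_ : IsGalois ℚ L),
    ∀ i, ((bigP (p i).1 (p i).2 S).map (algebraMap ℚ L)).Splits := by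
  obtain ⟨L, i1, i2, i3, hL⟩ := @field_aux (bigT p S) (bigT p S).SplittingField _ _ _
    (IsSplittingField.splittingField (bigT p S))
  refine ⟨L, i1, i2, i3, fun i => ?_⟩
  refine Splits.of_dvd hL ?_ (Polynomial.map_dvd _ (bigP_dvd p S i))
  exact (Polynomial.map_ne_zero_iff (algebraMap ℚ L).injective).2 (bigT_ne p S)

variable (L : Type) [Field L] [NumberField L] [IsGalois ℚ L]
  (hL : ∀ i, ((bigP (p i).1 (p i).2 S).map (algebraMap ℚ L)).Splits)

include hL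

/-- The Galois group contains an element without fixed root of any of the polynomials. -/
theorem exists_galT (h2 : ∀ i, ∀ z : ℤ, ¬ (2 : ℤ) ∣ z ^ 3 + (p i).1 * z + (p i).2) :
    ∃ g : Gal(L/ℚ), (∀ (x : 𝓞 L) (a : ℤ), x ^ 2 = (a : 𝓞 L) → g • x = x) ∧
      ∀ i, ∀ x : 𝓞 L, x ^ 3 + (p i).1 * x + (p i).2 = 0 → g • x ≠ x := by
  obtain ⟨𝔮, g, h𝔮, h2𝔮, hg⟩ := frob_two L
  have hfree : ∀ i, ∀ x : 𝓞 L, x ^ 3 + (p i).1 * x + (p i).2 = 0 → g • x ≠ x := by
    intro i x hx h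
    have h3 := hg x
    rw [h] at h3
    exact frob_two_root h𝔮 h2𝔮 (h2 i) hx h3
  refine ⟨g ^ 4, fun x a hx => ?_, fun i x hx h => ?_⟩
  · have h3 : g • x = x ∨ g • x = - x := by
      apply sq_eq_sq_iff_eq_or_eq_neg.1
      rw [← smul_pow', hx]
      exact map_intCast (MulSemiringAction.toRingHom Gal(L/ℚ) (𝓞 L) g) a
    have h4 : g • g • x = x := by
      rcases h3 with h | h
      · rw [h, h]
      · rw [h, smul_neg, h, neg_neg]
    have h5 : g ^ 4 • x = g • g • g • g • x := by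
      simp only [pow_succ, pow_zero, one_mul, mul_smul]
    rw [h5, h4, h4]
  · have hirr := cub_irr (h2 i)
    have hcard : Nat.card ((cub (p i).1 (p i).2).rootSet L) = 3 := by
      rw [Nat.card_eq_fintype_card, card_rootSet_eq_natDegree hirr.separable
        (cub_spl (p i).1 (p i).2 S L (hL i)), cub_deg]
    have hmem : algebraMap (𝓞 L) L x ∈ (cub (p i).1 (p i).2).rootSet L := by
      rw [mem_rootSet]
      refine ⟨(cub_monic _ _).ne_zero, ?_⟩
      have h3 := congrArg (algebraMap (𝓞 L) L) hx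
      simp only [map_add, map_mul, map_pow, map_intCast, map_zero] at h3
      simpa [cub] using h3
    have hfr : ∀ y : (cub (p i).1 (p i).2).rootSet L, g • y ≠ y := by
      rintro ⟨y, hy⟩ hgy
      have h6 : y ^ 3 + (p i).1 * y + (p i).2 = 0 := by
        have h7 := aeval_eq_zero_of_mem_rootSet hy
        simpa [cub] using h7
      have hi : IsIntegral ℤ y := by
        refine ⟨X ^ 3 + C (p i).1 * X + C (p i).2, by monicity!, ?_⟩
        simp only [eval₂_add, eval₂_mul, eval₂_pow, eval₂_X, eval₂_C]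
        rw [eq_intCast, eq_intCast]
        exact h6
      apply hfree i ⟨y, hi⟩
      · apply FaithfulSMul.algebraMap_injective (𝓞 L) L
        simp only [map_add, map_mul, map_pow, map_intCast, map_zero]
        exact h6
      · apply FaithfulSMul.algebraMap_injective (𝓞 L) L
        exact congrArg Subtype.val hgy
    apply four_fpf hcard g hfr ⟨_, hmem⟩
    apply Subtype.ext
    have h3 := congrArg (algebraMap (𝓞 L) L) h
    exact h3

end spl

/-- the good primes -/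
def TpT {n : ℕ} (p : Fin n → ℤ × ℤ) (S : Finset ℤ) (ℓ : ℕ) : Prop :=
  ∀ i, Tp (p i).1 (p i).2 S ℓ

/-- **Density of the good primes.** -/
theorem densT {n : ℕ} (hn : 1 ≤ n) {p : Fin n → ℤ × ℤ} (S : Finset ℤ) (hS : ∀ Q ∈ S, Q ≠ 0)
    (h2 : ∀ i, ∀ z : ℤ, ¬ (2 : ℤ) ∣ z ^ 3 + (p i).1 * z + (p i).2) :
    ∃ δ : ℝ, 0 < δ ∧ ∀ᶠ N : ℕ in atTop, δ * (Nat.primeCounting N : ℝ) ≤
      (((Finset.range (N + 1)).filter fun ℓ => ℓ.Prime ∧ TpT p S ℓ).card : ℝ) := by
  obtain ⟨L, _, _, _, hL⟩ := exists_fieldT p S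
  set i₀ : Fin n := ⟨0, hn⟩ with hi₀
  obtain ⟨i, hi⟩ := exists_i (p i₀).1 (p i₀).2 S L (hL i₀)
  have hr : ∀ Q : S, ∃ x : 𝓞 L, x ^ 2 = ((Q : ℤ) : 𝓞 L) := fun Q =>
    exists_r (p i₀).1 (p i₀).2 S L (hL i₀) Q.2
  choose r hr using hr
  set Cs : Set Gal(L/ℚ) := {g | g • i = i ∧ (∀ Q : S, g • r Q = r Q) ∧
    ∀ j, ∀ x : 𝓞 L, x ^ 3 + (p j).1 * x + (p j).2 = 0 → g • x ≠ x} with hCs
  have hne : Cs.Nonempty := by
    obtain ⟨g, hg1, hg2⟩ := exists_galT p S L hL h2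
    exact ⟨g, hg1 i _ hi, fun Q => hg1 _ _ (hr Q), hg2⟩
  set D : ℤ := 2 * (∏ Q ∈ S, Q) * ∏ j, (4 * (p j).1 ^ 3 + 27 * (p j).2 ^ 2) with hD
  have hD0 : D ≠ 0 := by
    refine mul_ne_zero (mul_ne_zero two_ne_zero (Finset.prod_ne_zero_iff.2 hS))
      (Finset.prod_ne_zero_iff.2 fun j _ => ?_)
    have e0 := h2 j 0
    simp only [ne_eq, OfNat.ofNat_ne_zero, not_false_eq_true, zero_pow, mul_zero, zero_add] at e0
    have hB : (p j).2 % 2 = 1 := by omega
    obtain ⟨b, hb⟩ : ∃ b, (p j).2 = 2 * b + 1 := ⟨(p j).2 / 2, by omega⟩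
    intro h
    rw [hb] at h
    have : (4 * (p j).1 ^ 3 + 27 * (2 * b + 1) ^ 2) % 2 = 1 := by
      have e : 4 * (p j).1 ^ 3 + 27 * (2 * b + 1) ^ 2 =
          2 * (2 * (p j).1 ^ 3 + 54 * b ^ 2 + 54 * b + 13) + 1 := by
        ring
      rw [e]
      omega
    rw [h] at this
    norm_num at this
  have key : ∀ (q : ℕ) [Fact q.Prime], ¬ q ∣ D.natAbs →
      ∀ (φ : 𝓞 L →+* AlgebraicClosure (ZMod q)) (g : Gal(L/ℚ)), HasFrob q φ g →
        (TpT p S q ↔ g ∈ Cs) := by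
    intro q hq hqD φ g hg
    have hqD' : ¬ (q : ℤ) ∣ D := fun h => hqD (Int.natCast_dvd.1 h)
    have hq2 : ¬ (q : ℤ) ∣ 2 := fun h => hqD' ((h.mul_right _).mul_right _)
    have hqne : q ≠ 2 := by
      rintro rfl
      exact hq2 (dvd_refl _)
    have hqQ : ∀ Q ∈ S, ¬ (q : ℤ) ∣ 2 * Q := fun Q hQ h => hqD' (by
      rw [hD]
      exact (h.trans (mul_dvd_mul_left 2 (Finset.dvd_prod_of_mem _ hQ))).mul_right _)
    have hqdisc : ∀ j, ¬ (q : ℤ) ∣ 4 * (p j).1 ^ 3 + 27 * (p j).2 ^ 2 := fun j h => hqD' (by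
      rw [hD]
      exact (h.trans (Finset.dvd_prod_of_mem (fun j => 4 * (p j).1 ^ 3 + 27 * (p j).2 ^ 2)
        (Finset.mem_univ j))).mul_left _)
    have hq21 : ¬ (q : ℤ) ∣ 2 * (-1) := by
      intro h
      apply hq2
      simpa using h
    haveI : CharP (AlgebraicClosure (ZMod q)) q := charP_of_injective_algebraMap
      (algebraMap (ZMod q) (AlgebraicClosure (ZMod q))).injective q
    have e1 := frob_sq hg hi hq21
    have e2 : ∀ Q : S, g • r Q = r Q ↔ ∃ c : ℤ, (q : ℤ) ∣ c ^ 2 - Q := fun Q =>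
      frob_sq hg (hr Q) (hqQ Q Q.2)
    have hqS : (q : ℤ) ∉ S := by
      intro h
      apply hqD'
      rw [hD]
      exact ((Finset.dvd_prod_of_mem (fun Q => Q) h).mul_left 2).mul_right _
    constructor
    · intro hT
      obtain ⟨-, h4, h5, -⟩ := hT i₀
      refine ⟨e1.2 ((four_one hqne).1 h4), fun Q => (e2 Q).2 (h5 Q Q.2), fun j x hx h7 => ?_⟩
      obtain ⟨z, hz⟩ := (frob_root hg hx (hqdisc j)).1 h7
      apply (hT j).2.2.2 z
      rw [← int_zero (k := AlgebraicClosure (ZMod q)) (p := q)]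
      have h8 := congrArg φ hx
      simp only [map_add, map_mul, map_pow, map_intCast, map_zero] at h8
      push_cast
      rw [← hz]
      exact h8
    · rintro ⟨h4, h5, h6⟩ j
      refine ⟨hqS, (four_one hqne).2 (e1.1 h4), fun Q hQ => (e2 ⟨Q, hQ⟩).1 (h5 ⟨Q, hQ⟩),
        fun z hz => ?_⟩
      obtain ⟨a, b, c, habc⟩ := three_roots (p j).1 (p j).2 S L (hL j)
      have h7 := congrArg φ (habc (z : 𝓞 L))
      have h8 : φ ((z : 𝓞 L) ^ 3 + (p j).1 * (z : 𝓞 L) + (p j).2) = 0 := by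
        rw [← int_zero (k := AlgebraicClosure (ZMod q)) (p := q)] at hz
        push_cast at hz
        simp only [map_add, map_mul, map_pow, map_intCast]
        exact hz
      rw [h8, map_mul, map_mul, map_sub, map_sub, map_sub, map_intCast, eq_comm, mul_eq_zero,
        mul_eq_zero] at h7
      have ha : a ^ 3 + (p j).1 * a + (p j).2 = 0 := by rw [habc]; ring
      have hb : b ^ 3 + (p j).1 * b + (p j).2 = 0 := by rw [habc]; ring
      have hc : c ^ 3 + (p j).1 * c + (p j).2 = 0 := by rw [habc]; ring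
      rcases h7 with (h7 | h7) | h7
      · exact h6 j a ha ((frob_root hg ha (hqdisc j)).2 ⟨z, (sub_eq_zero.1 h7).symm⟩)
      · exact h6 j b hb ((frob_root hg hb (hqdisc j)).2 ⟨z, (sub_eq_zero.1 h7).symm⟩)
      · exact h6 j c hc ((frob_root hg hc (hqdisc j)).2 ⟨z, (sub_eq_zero.1 h7).symm⟩)
  have h3 := Q283.TW.dens_of L Cs (TpT p S) D.natAbs (Int.natAbs_pos.2 hD0) key
  set κ : ℝ := (Nat.card Cs : ℝ) / (Nat.card Gal(L/ℚ) : ℝ) with hκ
  have hκ0 : 0 < κ := by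
    haveI : Nonempty Cs := hne.to_subtype
    have e1 : 0 < Nat.card Cs := Nat.card_pos
    have e2 : 0 < Nat.card Gal(L/ℚ) := Nat.card_pos
    rw [hκ]
    positivity
  refine ⟨κ / 2, by positivity, ?_⟩
  filter_upwards [h3.eventually (lt_mem_nhds (show κ / 2 < κ by linarith))] with N hN
  have h4 : ∑ q ∈ pr N, (if TpT p S q then (1 : ℝ) else 0) =
      (((Finset.range (N + 1)).filter fun q => q.Prime ∧ TpT p S q).card : ℝ) := by
    rw [Finset.sum_ite, Finset.sum_const_zero, add_zero, Finset.sum_const, nsmul_eq_mul, mul_one,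
      pr, Finset.filter_filter]
  unfold M at hN
  rw [h4] at hN
  by_cases h0 : (Nat.primeCounting N : ℝ) = 0
  · rw [h0, mul_zero]
    positivity
  · have h5 : 0 < (Nat.primeCounting N : ℝ) := lt_of_le_of_ne (Nat.cast_nonneg _) (Ne.symm h0)
    rw [lt_div_iff₀ h5] at hN
    exact hN.le

end Pool.Agent.U693.QN
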