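import Pool.Agent.U693.UN.Om
import Pool.Agent.U693.QN.Che

/-!
# The common class of several elliptic curves and the union of its members
-/

set_option autoImplicit false
set_option linter.all false

open Polynomial IsDedekindDomain NumberField
open scoped Classical IntermediateField

namespace Pool.Agent.U693.QN

open Pool.Agent.U693.UN
open Pool.Agent.N922.PQ (IsPr Ov Crv GoodV crv_fin)

/-- The common class. -/
def InT (S : Finset ℤ) {n : ℕ} (p : Fin n → ℤ × ℤ) (M : Type) [Field M] [NumberField M] : Prop :=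
  ∀ i, InClass S (p i).1 (p i).2 M

theorem InT.comp {n : ℕ} (hn : 1 ≤ n) {p : Fin n → ℤ × ℤ} {S : Finset ℤ} (hSp : ∀ Q ∈ S, IsPr Q)
    {M₁ M₂ N : Type} [Field M₁] [NumberField M₁] [Field M₂] [NumberField M₂] [Field N]
    [NumberField N] [Algebra M₁ N] [Algebra M₂ N] (hg : Gnd M₁ M₂ N) (h₁ : InT S p M₁)
    (h₂ : InT S p M₂) : InT S p N := by
  haveI := (h₁ ⟨0, hn⟩).galois
  haveI := (h₂ ⟨0, hn⟩).galois
  exact fun i => InClass.comp hSp hg (h₁ i) (h₂ i)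

section om

variable (Ω : Type) [Field Ω] [CharZero Ω] (S : Finset ℤ) {n : ℕ} (p : Fin n → ℤ × ℤ)

/-- The union of the images of the fields in the class. -/
def OmT : Set Ω := {x | ∃ (M : Type) (_ : Field M) (_ : NumberField M) (φ : M →+* Ω),
  InT S p M ∧ x ∈ Set.range φ}

variable {Ω S p}

theorem omT_two (hn : 1 ≤ n) (hSp : ∀ Q ∈ S, IsPr Q) {x y : Ω} (hx : x ∈ OmT Ω S p) (hy : y ∈ OmT Ω S p) :
    ∃ (M : Type) (_ : Field M) (_ : NumberField M) (φ : M →+* Ω), InT S p M ∧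
      ∃ a b : M, φ a = x ∧ φ b = y := by
  obtain ⟨M₁, i1, i2, φ₁, h1, a, rfl⟩ := hx
  obtain ⟨M₂, i3, i4, φ₂, h2, b, rfl⟩ := hy
  obtain ⟨N, j1, j2, j3, j4, ψ, hg, e1, e2⟩ := exists_comp φ₁ φ₂
  exact ⟨N, j1, j2, ψ, InT.comp hn hSp hg h1 h2, _, _, e1 a, e2 b⟩

theorem omT_field (hn : 1 ≤ n) (hSp : ∀ Q ∈ S, IsPr Q) {K : Type} [Field K] [NumberField K] (φ₀ : K →+* Ω)
    (hK : InT S p K) : ∃ T : Subfield Ω, (T : Set Ω) = OmT Ω S p := by
  refine ⟨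
    { carrier := OmT Ω S p
      mul_mem' := ?_
      one_mem' := ?_
      add_mem' := ?_
      zero_mem' := ?_
      neg_mem' := ?_
      inv_mem' := ?_ }, rfl⟩
  · intro x y hx hy
    obtain ⟨M, i1, i2, φ, h, a, b, rfl, rfl⟩ := omT_two hn hSp hx hy
    exact ⟨M, i1, i2, φ, h, a * b, map_mul _ _ _⟩
  · exact ⟨K, _, _, φ₀, hK, 1, map_one _⟩
  · intro x y hx hy
    obtain ⟨M, i1, i2, φ, h, a, b, rfl, rfl⟩ := omT_two hn hSp hx hy
    exact ⟨M, i1, i2, φ, h, a + b, map_add _ _ _⟩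
  · exact ⟨K, _, _, φ₀, hK, 0, map_zero _⟩
  · rintro x ⟨M, i1, i2, φ, h, a, rfl⟩
    exact ⟨M, i1, i2, φ, h, -a, map_neg _ _⟩
  · rintro x ⟨M, i1, i2, φ, h, a, rfl⟩
    exact ⟨M, i1, i2, φ, h, a⁻¹, map_inv₀ _ _⟩

theorem omT_stable (σ : Ω →+* Ω) {x : Ω} (hx : x ∈ OmT Ω S p) : σ x ∈ OmT Ω S p := by
  obtain ⟨M, i1, i2, φ, h, a, rfl⟩ := hx
  exact ⟨M, i1, i2, σ.comp φ, h, a, rfl⟩

theorem omT_sub {F : Type} [Field F] [NumberField F] (φ : F →+* Ω)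
    (hφ : ∀ x, φ x ∈ OmT Ω S p) : ∃ (M : Type) (_ : Field M) (_ : NumberField M),
      InT S p M ∧ Nonempty (F →+* M) := by
  obtain ⟨t, ht⟩ := Field.exists_primitive_element ℚ F
  obtain ⟨M, i1, i2, ψ, hM, m, hm⟩ := hφ t
  refine ⟨M, i1, i2, hM, ?_⟩
  have h1 : ∀ x : F, φ x ∈ ψ.fieldRange := by
    intro x
    have h2 : x ∈ (⊤ : IntermediateField ℚ F) := trivial
    rw [← ht] at h2
    have h3 : IntermediateField.adjoin ℚ {t} ≤ Subfield.toIntermediateField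
        (ψ.fieldRange.comap φ) (fun q => by
          rw [eq_ratCast]
          exact SubfieldClass.ratCast_mem _ q) := by
      rw [IntermediateField.adjoin_le_iff, Set.singleton_subset_iff]
      exact ⟨m, hm⟩
    exact h3 h2
  have h2 : Function.Bijective ψ.rangeRestrictField := by
    refine ⟨fun a b hab => ψ.injective (congrArg Subtype.val hab), ?_⟩
    rintro ⟨_, a, rfl⟩
    exact ⟨a, rfl⟩
  exact ⟨(RingEquiv.ofBijective _ h2).symm.toRingHom.comp (φ.codRestrict ψ.fieldRange h1)⟩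

theorem omT_sqrt {d : ℤ}
    (h : ∀ (M : Type) [Field M] [NumberField M] (r : M), r ^ 2 = (d : M) →
      (∀ T : Subfield M, r ∈ T → T = ⊤) → InT S p M)
    {r : Ω} (hr : r ^ 2 = (d : Ω)) : r ∈ OmT Ω S p := by
  have hint : IsIntegral ℚ r := by
    refine ⟨X ^ 2 - C (d : ℚ), by monicity!, ?_⟩
    simp only [eval₂_sub, eval₂_pow, eval₂_X, eval₂_C]
    rw [hr, map_intCast, sub_self]
  haveI f3 : FiniteDimensional ℚ ℚ⟮r⟯ := IntermediateField.adjoin.finiteDimensional hint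
  haveI f4 : CharZero ℚ⟮r⟯ := charZero_of_injective_algebraMap (algebraMap ℚ ℚ⟮r⟯).injective
  have f5 : NumberField ℚ⟮r⟯ := nf_of _ _ f3
  refine ⟨ℚ⟮r⟯, inferInstance, f5, algebraMap ℚ⟮r⟯ Ω, ?_, ⟨⟨r,
    IntermediateField.mem_adjoin_simple_self ℚ r⟩, rfl⟩⟩
  refine h ℚ⟮r⟯ ⟨r, IntermediateField.mem_adjoin_simple_self ℚ r⟩ ?_ ?_
  · apply Subtype.ext
    exact hr
  · intro T hT
    rw [eq_top_iff]
    rintro ⟨z, hz⟩ -
    have h3 : ℚ⟮r⟯ ≤ Subfield.toIntermediateField (T.map (algebraMap ℚ⟮r⟯ Ω))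
        (fun q => by
          refine ⟨algebraMap ℚ ℚ⟮r⟯ q, ?_, rfl⟩
          rw [eq_ratCast]
          exact SubfieldClass.ratCast_mem T q) := by
      rw [IntermediateField.adjoin_le_iff, Set.singleton_subset_iff]
      exact ⟨_, hT, rfl⟩
    obtain ⟨t, ht, he⟩ := h3 hz
    have : t = ⟨z, hz⟩ := Subtype.ext he
    rw [← this]
    exact ht

end om

/-- The quadratic fields. -/
theorem quadT {n : ℕ} {S : Finset ℤ} (hS : ∀ Q ∈ S, IsPr Q ∧ Q % 8 = 1) {p : Fin n → ℤ × ℤ} {ℓ : ℕ}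
    (hℓ : ℓ.Prime) (h : TpT p S ℓ) (M : Type) [Field M] [NumberField M] (r : M)
    (hr : r ^ 2 = ((ℓ : ℤ) : M)) (hgen : ∀ T : Subfield M, r ∈ T → T = ⊤) : InT S p M :=
  fun i => quad_of_Tp hS hℓ (h i) M r hr hgen

/-- The number of the tuples. -/
theorem card_tuples {α : Type} {G : Set α} (hG : G.Finite) (n : ℕ) :
    {p : Fin n → α | ∀ i, p i ∈ G}.ncard = G.ncard ^ n := by
  have e : {p : Fin n → α | ∀ i, p i ∈ G} =
      ((Fintype.piFinset fun _ : Fin n => hG.toFinset : Finset (Fin n → α)) : Set (Fin n → α)) := by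
    ext p
    simp only [Set.mem_setOf_eq, Finset.mem_coe, Fintype.mem_piFinset, Set.Finite.mem_toFinset]
  rw [e, Set.ncard_coe_finset, Fintype.card_piFinset_const, Set.ncard_eq_toFinset_card _ hG]

/-- The property of one curve. -/
def One (K : Type) [Field K] [NumberField K] (S : Finset ℤ) (p : ℤ × ℤ) : Prop :=
  InClass S p.1 p.2 K ∧ (∀ z : ℤ, ¬ (2 : ℤ) ∣ z ^ 3 + p.1 * z + p.2) ∧
    ∀ (M : Type) [Field M] [NumberField M], InClass S p.1 p.2 M → GoodV (M := M) (𝓞 M) p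

/-- **A positive proportion of all tuples.** -/
theorem finalT (n : ℕ) (K : Type) [Field K] [NumberField K] [IsGalois ℚ K] {m : ℕ}
    (hm : Module.finrank ℚ K = 2 ^ m)
    (h2 : ∀ 𝔭 : Ideal (𝓞 K), 𝔭.IsPrime → (2 : 𝓞 K) ∉ 𝔭 ^ 2) :
    ∃ S : Finset ℤ, (∀ Q ∈ S, IsPr Q ∧ Q % 8 = 1) ∧
    ∃ c : ℝ, 0 < c ∧ ∃ H₀ : ℕ, ∀ H ≥ H₀, {p : ℤ × ℤ | Crv H p.1 p.2}.Finite ∧
    c * ({p : ℤ × ℤ | Crv H p.1 p.2}.ncard : ℝ) ^ n ≤
      ({p : Fin n → ℤ × ℤ | ∀ i, Crv H (p i).1 (p i).2 ∧ One K S (p i)}.ncard : ℝ) := by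
  obtain ⟨S, hS, c, hc, H₀, h⟩ := finalU K hm h2
  refine ⟨S, hS, c ^ n, pow_pos hc n, H₀, fun H hH => ?_⟩
  obtain ⟨h1, h3⟩ := h H hH
  refine ⟨h1, ?_⟩
  have hG : {p : ℤ × ℤ | Crv H p.1 p.2 ∧ One K S p}.Finite := h1.subset fun p hp => hp.1
  have h4 := card_tuples hG n
  have e : {p : Fin n → ℤ × ℤ | ∀ i, Crv H (p i).1 (p i).2 ∧ One K S (p i)} =
    {p : Fin n → ℤ × ℤ | ∀ i, p i ∈ {p : ℤ × ℤ | Crv H p.1 p.2 ∧ One K S p}} := rfl
  rw [e, h4, ← mul_pow]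
  push_cast
  exact pow_le_pow_left₀ (mul_nonneg hc.le (Nat.cast_nonneg _)) h3 n

end Pool.Agent.U693.QN
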