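import Pool.Agent.U693.QN.Om
import Pool.Agent.U693.QN.Sch

/-!
# Maps to elliptic curves which are defined over an extension field
-/

set_option autoImplicit false
set_option linter.all false

open AlgebraicGeometry CategoryTheory CategoryTheory.Limits IsLocalRing NumberField
open scoped Classical IntermediateField

namespace Pool.Agent.U693.QN

/-- The point of the spectrum of a field is unique. -/
theorem pt_unique {κ : Type} [Field κ] (z z' : Spec (.of κ)) : z = z' := Subsingleton.elim z z'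

/-- If `X` has a point over `L` in the image of an open subset of `X ×_k L₀` then there is a point of the
open subset with values in a field which is generated by `L` and `L₀`. -/
theorem exists_pt_aux {k L₀ L : Type} [Field k] [Field L₀] [Field L] {X : Scheme.{0}}
    (a₀ : CommRingCat.of k ⟶ CommRingCat.of L₀) (a : CommRingCat.of k ⟶ CommRingCat.of L)
    (π : X ⟶ Spec (.of k)) (s : Spec (.of L) ⟶ X) (hs : s ≫ π = Spec.map a)
    (u : ↑(pullback π (Spec.map a₀)))
    (hu : pullback.fst π (Spec.map a₀) u = s (closedPoint L)) :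
    ∃ (κ : Type) (_ : Field κ) (g₁ : L →+* κ) (g₂ : L₀ →+* κ)
      (t : Spec (.of κ) ⟶ pullback π (Spec.map a₀)),
      (∀ T : Subfield κ, (∀ a, g₁ a ∈ T) → (∀ a, g₂ a ∈ T) → T = ⊤) ∧ t (closedPoint κ) = u := by
  obtain ⟨w, hw1, hw2⟩ := Scheme.Pullback.exists_preimage_pullback (f := s)
    (g := pullback.fst π (Spec.map a₀)) (closedPoint L) u hu.symm
  -- the point with values in the residue field
  let e := (pullback s (pullback.fst π (Spec.map a₀))).fromSpecResidueField w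
  obtain ⟨a₁, ha₁⟩ := Spec.map_surjective (e ≫ pullback.fst s (pullback.fst π (Spec.map a₀)))
  obtain ⟨a₂, ha₂⟩ := Spec.map_surjective (e ≫ pullback.snd s (pullback.fst π (Spec.map a₀)) ≫
    pullback.snd π (Spec.map a₀))
  let b₁ : L →+* (pullback s (pullback.fst π (Spec.map a₀))).residueField w := a₁.hom
  let b₂ : L₀ →+* (pullback s (pullback.fst π (Spec.map a₀))).residueField w := a₂.hom
  let κ : Subfield ((pullback s (pullback.fst π (Spec.map a₀))).residueField w) :=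
    b₁.fieldRange ⊔ b₂.fieldRange
  have h1 : ∀ a, b₁ a ∈ κ := fun a => (le_sup_left : b₁.fieldRange ≤ κ) ⟨a, rfl⟩
  have h2 : ∀ a, b₂ a ∈ κ := fun a => (le_sup_right : b₂.fieldRange ≤ κ) ⟨a, rfl⟩
  let g₁ : L →+* κ := b₁.codRestrict κ h1
  let g₂ : L₀ →+* κ := b₂.codRestrict κ h2
  let inc : CommRingCat.of κ ⟶ (pullback s (pullback.fst π (Spec.map a₀))).residueField w :=
    CommRingCat.ofHom κ.subtype
  have e1 : CommRingCat.ofHom g₁ ≫ inc = a₁ := by
    ext a
    rfl
  have e2 : CommRingCat.ofHom g₂ ≫ inc = a₂ := by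
    ext a
    rfl
  have hinc : Function.Injective inc.hom := κ.subtype.injective
  have hcomp : a ≫ CommRingCat.ofHom g₁ = a₀ ≫ CommRingCat.ofHom g₂ := by
    have h3 : (a ≫ CommRingCat.ofHom g₁) ≫ inc = (a₀ ≫ CommRingCat.ofHom g₂) ≫ inc := by
      rw [Category.assoc, Category.assoc, e1, e2]
      apply Spec.map_injective
      rw [Spec.map_comp, Spec.map_comp, ha₁, ha₂, ← hs]
      simp only [Category.assoc]
      rw [← pullback.condition, pullback.condition_assoc]
    apply CommRingCat.hom_ext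
    apply RingHom.ext
    intro z
    apply hinc
    exact congrArg (fun q => q.hom z) h3
  have hc2 : (Spec.map (CommRingCat.ofHom g₁) ≫ s) ≫ π =
      Spec.map (CommRingCat.ofHom g₂) ≫ Spec.map a₀ := by
    rw [Category.assoc, hs, ← Spec.map_comp, ← Spec.map_comp, hcomp]
  refine ⟨κ, inferInstance, g₁, g₂, pullback.lift (Spec.map (CommRingCat.ofHom g₁) ≫ s)
    (Spec.map (CommRingCat.ofHom g₂)) hc2, ?_, ?_⟩
  · intro T hT1 hT2
    rw [eq_top_iff]
    rintro ⟨z, hz⟩ -
    have hle : κ ≤ T.map κ.subtype := by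
      refine sup_le ?_ ?_
      · rintro _ ⟨a, rfl⟩
        exact ⟨g₁ a, hT1 a, rfl⟩
      · rintro _ ⟨a, rfl⟩
        exact ⟨g₂ a, hT2 a, rfl⟩
    obtain ⟨t, ht, he⟩ := hle hz
    have : t = ⟨z, hz⟩ := Subtype.ext he
    rw [← this]
    exact ht
  · have h5 : Spec.map inc ≫ pullback.lift (Spec.map (CommRingCat.ofHom g₁) ≫ s)
        (Spec.map (CommRingCat.ofHom g₂)) hc2 = e ≫ pullback.snd s (pullback.fst π (Spec.map a₀)) := by
      apply pullback.hom_ext
      · rw [Category.assoc, pullback.lift_fst, ← Category.assoc, ← Spec.map_comp, e1, ha₁,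
          Category.assoc, Category.assoc, pullback.condition]
      · rw [Category.assoc, pullback.lift_snd, ← Spec.map_comp, e2, ha₂, Category.assoc]
    have h6 : (e ≫ pullback.snd s (pullback.fst π (Spec.map a₀))) (closedPoint _) = u := by
      rw [← hw2]
      show pullback.snd s (pullback.fst π (Spec.map a₀)) (e (closedPoint _)) = _
      exact congrArg _ (Scheme.fromSpecResidueField_apply w _)
    rw [← h6, ← h5]
    exact congrArg (fun z : ↑(Spec (CommRingCat.of κ)) =>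
      (pullback.lift (Spec.map (CommRingCat.ofHom g₁) ≫ s) (Spec.map (CommRingCat.ofHom g₂)) hc2) z)
      (pt_unique _ _)

section embed

variable {Ω : Type} [Field Ω] [CharZero Ω] [IsAlgClosed Ω] [Algebra.IsAlgebraic ℚ Ω]

/-- All embeddings of a field in `Ω` have their images in a stable set if one has. -/
theorem stable_of {T : Set Ω} (hT : ∀ σ : Ω →+* Ω, ∀ x ∈ T, σ x ∈ T) {L : Type} [Field L]
    (φ ψ : L →+* Ω) (hφ : ∀ a, φ a ∈ T) (a : L) : ψ a ∈ T := by
  haveI : CharZero L := (RingHom.charZero_iff φ.injective).2 inferInstance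
  let φ' : L →ₐ[ℚ] Ω := φ.toRatAlgHom
  let ψ' : L →ₐ[ℚ] Ω := ψ.toRatAlgHom
  have h1 : minpoly ℚ (φ' a) = minpoly ℚ (ψ' a) := by
    rw [minpoly.algHom_eq φ' φ'.injective, minpoly.algHom_eq ψ' ψ'.injective]
  haveI : IsAlgClosure ℚ Ω := ⟨inferInstance, inferInstance⟩
  haveI : Normal ℚ Ω := IsAlgClosure.normal ℚ Ω
  obtain ⟨g, hg⟩ := (Normal.minpoly_eq_iff_mem_orbit Ω).1 h1.symm
  have h2 : g (φ' a) = ψ' a := hg
  have h3 := hT (g : Ω →+* Ω) (φ' a) (hφ a)
  have h4 : (g : Ω →+* Ω) (φ' a) = ψ a := h2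
  rwa [h4] at h3

/-- A field generated by two subfields which are embedded in a stable field is embedded in it. -/
theorem embed_of (T : Subfield Ω) (hT : ∀ σ : Ω →+* Ω, ∀ x ∈ T, σ x ∈ T) {L L₀ κ : Type}
    [Field L] [Field L₀] [Field κ] (φ : L →+* Ω) (φ₀ : L₀ →+* Ω)
    (hφ : ∀ a, φ a ∈ T) (hφ₀ : ∀ a, φ₀ a ∈ T) (g₁ : L →+* κ) (g₂ : L₀ →+* κ)
    (hg : ∀ T : Subfield κ, (∀ a, g₁ a ∈ T) → (∀ a, g₂ a ∈ T) → T = ⊤) :
    ∃ ψ : κ →+* Ω, ∀ a, ψ a ∈ T := by
  haveI : CharZero L := (RingHom.charZero_iff φ.injective).2 inferInstance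
  haveI : CharZero L₀ := (RingHom.charZero_iff φ₀.injective).2 inferInstance
  haveI : CharZero κ := (RingHom.charZero_iff g₁.injective).1 inferInstance
  have alg : ∀ (E : Type) [Field E] [CharZero E] (θ : E →+* Ω) (g : E →+* κ)
      (a : E), IsAlgebraic ℚ (g a) := by
    intro E _ _ θ g a
    have h1 : IsAlgebraic ℚ (θ.toRatAlgHom a) := Algebra.IsAlgebraic.isAlgebraic _
    have h2 : IsAlgebraic ℚ a := (isAlgebraic_algHom_iff θ.toRatAlgHom θ.injective).1 h1
    exact (isAlgebraic_algHom_iff g.toRatAlgHom g.injective).2 h2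
  have h1 := hg (algebraicClosure ℚ κ).toSubfield
    (fun a => mem_algebraicClosure_iff.2 (alg L φ g₁ a))
    (fun a => mem_algebraicClosure_iff.2 (alg L₀ φ₀ g₂ a))
  haveI : Algebra.IsAlgebraic ℚ κ := ⟨fun z => by
    have h2 : z ∈ (algebraicClosure ℚ κ).toSubfield := by
      rw [h1]
      trivial
    exact mem_algebraicClosure_iff.1 h2⟩
  let ψ : κ →ₐ[ℚ] Ω := IsAlgClosed.lift
  refine ⟨ψ, ?_⟩
  have h3 := hg (T.comap (ψ : κ →+* Ω))
    (fun a => stable_of (T := T) hT φ ((ψ : κ →+* Ω).comp g₁) hφ a)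
    (fun a => stable_of (T := T) hT φ₀ ((ψ : κ →+* Ω).comp g₂) hφ₀ a)
  intro z
  have h4 : z ∈ T.comap (ψ : κ →+* Ω) := by
    rw [h3]
    trivial
  exact h4

end embed

theorem alg_Q : @Algebra.IsAlgebraic ℚ (AlgebraicClosure ℚ) _ _ DivisionRing.toRatAlgebra := by
  have e : (DivisionRing.toRatAlgebra : Algebra ℚ (AlgebraicClosure ℚ)) =
      AlgebraicClosure.instAlgebra ℚ := Subsingleton.elim _ _
  rw [e]
  infer_instance

/-- The points of a scheme for which a map to an elliptic curve exists over an extension. -/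
theorem no_pt_desc (T : Subfield (AlgebraicClosure ℚ))
    (hT : ∀ σ : AlgebraicClosure ℚ →+* AlgebraicClosure ℚ, ∀ x ∈ T, σ x ∈ T) {A B : ℤ}
    (hno : ∀ (κ : Type) [Field κ] (ψ : κ →+* AlgebraicClosure ℚ), (∀ a, ψ a ∈ T) →
      ∀ a b : κ, b ^ 2 ≠ a ^ 3 + A * a + B)
    {k L₀ L : Type} [Field k] [Field L₀] [Field L] [Algebra k L₀] [Algebra k L]
    (φ : L →+* AlgebraicClosure ℚ) (φ₀ : L₀ →+* AlgebraicClosure ℚ)
    (hφ : ∀ a, φ a ∈ T) (hφ₀ : ∀ a, φ₀ a ∈ T) {X : Scheme.{0}} (π : X ⟶ Spec (.of k))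
    (U : (pullback π (Spec.map (CommRingCat.ofHom (algebraMap k L₀)))).Opens)
    (x y : Γ(pullback π (Spec.map (CommRingCat.ofHom (algebraMap k L₀))), U))
    (he : y ^ 2 = x ^ 3 + (A : Γ(pullback π (Spec.map (CommRingCat.ofHom (algebraMap k L₀))), U)) * x +
      (B : Γ(pullback π (Spec.map (CommRingCat.ofHom (algebraMap k L₀))), U)))
    (s : Spec (.of L) ⟶ X) (hs : s ≫ π = Spec.map (CommRingCat.ofHom (algebraMap k L))) :
    s (closedPoint L) ∉
      pullback.fst π (Spec.map (CommRingCat.ofHom (algebraMap k L₀))) '' (U : Set _) := by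
  rintro ⟨u, hu, hus⟩
  obtain ⟨κ, iκ, g₁, g₂, t, hg, ht⟩ := exists_pt_aux _ _ π s hs u hus
  haveI := alg_Q
  obtain ⟨ψ, hψ⟩ := embed_of T hT φ φ₀ hφ hφ₀ g₁ g₂ hg
  refine no_pt (hno κ ψ hψ) t U x y he ?_
  rw [ht]
  exact hu

end Pool.Agent.U693.QN
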